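import Pool.Agent.R289.VN8

set_option autoImplicit false

/-!
# Von Neumann algebras whose unitaries are residual in the unit ball

A von Neumann algebra has property (R) if and only if it is σ-finite and has no nonzero
finite-dimensional direct summand.
-/

namespace Pool.Agent.Results.MP_de1b00_an.ResidualUnitaries

universe u

variable {H : Type u} [NormedAddCommGroup H] [InnerProductSpace ℂ H] [CompleteSpace H]

/-- The closed unit ball of the von Neumann algebra `M`, as a bare type (without topology). -/
def UnitBall (M : VonNeumannAlgebra H) : Type u := {x : H →L[ℂ] H // x ∈ M ∧ ‖x‖ ≤ 1}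

variable (H) in
/-- Pairs `(ξ, η)` of square-summable sequences of vectors of `H`. They index the normal
functionals `x ↦ ∑ ⟪η n, x (ξ n)⟫`. -/
def SquareSummablePair : Type u :=
  {p : (ℕ → H) × (ℕ → H) // Summable (fun n => ‖p.1 n‖ ^ 2) ∧ Summable (fun n => ‖p.2 n‖ ^ 2)}

/-- The value at `x` of the normal functional attached to `p = (ξ, η)`. -/
noncomputable def normalFunctional (p : SquareSummablePair H) (x : H →L[ℂ] H) : ℂ :=
  ∑' n, inner ℂ (p.1.2 n) (x (p.1.1 n))

/-- The weak* (that is, σ-weak) topology on the unit ball: the coarsest topology for which all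
normal functionals are continuous. -/
noncomputable def weakStarTopology (M : VonNeumannAlgebra H) : TopologicalSpace (UnitBall M) :=
  TopologicalSpace.induced
    (fun (x : UnitBall M) (p : SquareSummablePair H) => normalFunctional p x.1) inferInstance

/-- The unitary elements of `M`. -/
def Unitaries (M : VonNeumannAlgebra H) : Set (UnitBall M) :=
  {x | star x.1 * x.1 = 1 ∧ x.1 * star x.1 = 1}

/-- Property (R): the non-unitary elements of the closed unit ball form a set of first category
for the weak* topology. -/
def PropertyR (M : VonNeumannAlgebra H) : Prop :=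
  @IsMeagre (UnitBall M) (weakStarTopology M) (Unitaries M)ᶜ

/-- Orthogonal projections. -/
def IsProjection (p : H →L[ℂ] H) : Prop := star p = p ∧ p * p = p

/-- `M` is σ-finite (countably decomposable): every set of pairwise orthogonal nonzero projections
of `M` is countable. -/
def IsSigmaFinite (M : VonNeumannAlgebra H) : Prop :=
  ∀ P : Set (H →L[ℂ] H), (∀ p ∈ P, p ∈ M ∧ IsProjection p ∧ p ≠ 0) →
    (∀ p ∈ P, ∀ q ∈ P, p ≠ q → p * q = 0) → P.Countable

/-- `M` has no nonzero finite-dimensional direct summand: a central projection `z` of `M` for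
which `z M` is finite-dimensional is zero. -/
def NoFiniteDimensionalSummand (M : VonNeumannAlgebra H) : Prop :=
  ∀ z : H →L[ℂ] H, z ∈ M → IsProjection z → (∀ x ∈ M, x * z = z * x) →
    FiniteDimensional ℂ (Submodule.span ℂ {y : H →L[ℂ] H | ∃ x ∈ M, y = z * x}) → z = 0

/-- **Main result.** A von Neumann algebra has property (R) if and only if it is σ-finite and has
no nonzero finite-dimensional direct summand. -/
theorem result (H : Type u) [NormedAddCommGroup H] [InnerProductSpace ℂ H] [CompleteSpace H]
    (M : VonNeumannAlgebra H) :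
    PropertyR M ↔ (IsSigmaFinite M ∧ NoFiniteDimensionalSummand M) := by
  have h := R289.VN.propertyR_iff M
  have h1 : PropertyR M ↔ R289.VN.PropertyR M := Iff.rfl
  have h2 : IsSigmaFinite M ↔ R289.VN.SigmaFin M := by
    constructor
    · intro h P hP1 hP2
      exact h P (fun p hp => ⟨(hP1 p hp).1, ⟨(hP1 p hp).2.1.sa, (hP1 p hp).2.1.idem⟩,
        (hP1 p hp).2.2⟩) hP2
    · intro h P hP1 hP2
      exact h P (fun p hp => ⟨(hP1 p hp).1, ⟨(hP1 p hp).2.1.1, (hP1 p hp).2.1.2⟩,
        (hP1 p hp).2.2⟩) hP2
  have h3 : NoFiniteDimensionalSummand M ↔ R289.VN.NoFD M := by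
    constructor
    · intro h z hz1 hz2 hz3 hz4
      exact h z hz1 ⟨hz2.sa, hz2.idem⟩ hz3 hz4
    · intro h z hz1 hz2 hz3 hz4
      exact h z hz1 ⟨hz2.1, hz2.2⟩ hz3 hz4
  rw [h1, h2, h3]
  exact h

end Pool.Agent.Results.MP_de1b00_an.ResidualUnitaries
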